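import Pool.Agent.helper82.SW.SpecW

/-!
# sp:WCNB: a white path of adjacent sites is a white path of bricks
-/

namespace Pool.Agent.helper82.SW

theorem CNB_br (v : ℤ × ℤ) : TP.br (sh v) = sh v := by
  obtain ⟨i, j⟩ := v
  have h : (2 * i + j + j) % 2 = 0 := by omega
  simp [TP.br, sh, h]

theorem CNB_adj (x y x' y' : ℤ) (h : max (x - x').natAbs (y - y').natAbs = 1)
    (h' : x = x' ∨ y = y') : DP.Adj (x, y) (x', y') :=
  ⟨h, h'.elim Or.inl fun e => Or.inr (Or.inl e)⟩

theorem CNB_br' (x y z : ℤ) (h : (x + y) % 2 = 1) (hz : z = x - 1) :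
    TP.br (x, y) = (z, y) := by
  have h1 : ¬ (x + y) % 2 = 0 := by omega
  simp only [TP.br, if_neg h1, hz]

/-- A step of the triangular lattice is two steps of the fine grid inside the two bricks. -/
theorem CNB_step (u w : ℤ × ℤ) (h : SC.TAdj u w) :
    ∃ m : ℤ × ℤ, DP.Adj (sh u) m ∧ DP.Adj m (sh w) ∧ (TP.br m = sh u ∨ TP.br m = sh w) := by
  obtain ⟨i, j⟩ := u
  rcases h with h | h | h | h | h | h <;> subst h
  · exact ⟨(2 * i + j + 1, j), CNB_adj _ _ _ _ (by omega) (by omega),
      CNB_adj _ _ _ _ (by simp only []; omega) (Or.inr rfl),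
      Or.inl (CNB_br' _ _ _ (by omega) (by simp only []; omega))⟩
  · exact ⟨(2 * i + j - 1, j), CNB_adj _ _ _ _ (by omega) (by omega),
      CNB_adj _ _ _ _ (by simp only []; omega) (Or.inr rfl),
      Or.inr (CNB_br' _ _ _ (by omega) (by simp only []; omega))⟩
  · exact ⟨(2 * i + j + 1, j), CNB_adj _ _ _ _ (by omega) (by omega),
      CNB_adj _ _ _ _ (by simp only []; omega) (Or.inl (by ring)),
      Or.inl (CNB_br' _ _ _ (by omega) (by simp only []; omega))⟩
  · exact ⟨(2 * i + j, j - 1), CNB_adj _ _ _ _ (by omega) (by omega),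
      CNB_adj _ _ _ _ (by simp only []; omega) (Or.inr rfl),
      Or.inr (CNB_br' _ _ _ (by omega) (by simp only []; omega))⟩
  · exact ⟨(2 * i + j + 1, j), CNB_adj _ _ _ _ (by omega) (by omega),
      CNB_adj _ _ _ _ (by simp only []; omega) (Or.inl (by ring)),
      Or.inl (CNB_br' _ _ _ (by omega) (by simp only []; omega))⟩
  · exact ⟨(2 * i + j, j + 1), CNB_adj _ _ _ _ (by omega) (by omega),
      CNB_adj _ _ _ _ (by simp only []; omega) (Or.inr rfl),
      Or.inr (CNB_br' _ _ _ (by omega) (by simp only []; omega))⟩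

theorem CNB : CNB_stmt := by
  intro U b u w h
  obtain ⟨hu, hp⟩ := h
  have hcol : ∀ v : ℤ × ℤ,
      v ∈ ((U.filter fun v => b (sh v) = false : Finset (ℤ × ℤ)) : Set (ℤ × ℤ)) →
      b (sh v) = false := fun v hv => by
    have := Finset.mem_coe.1 hv
    exact (Finset.mem_filter.1 this).2
  refine ⟨⟨Set.mem_univ _, by rw [TP.col, CNB_br]; exact hcol u hu⟩, ?_⟩
  have key : b (sh w) = false ∧ Relation.ReflTransGen
      (fun x y => DP.Adj x y ∧ y ∈ {w | w ∈ Set.univ ∧ TP.col b w = false}) (sh u) (sh w) := by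
    induction hp with
    | refl => exact ⟨hcol u hu, .refl⟩
    | tail hp hs ih =>
      rename_i x y
      obtain ⟨ha, hy⟩ := hs
      have hy' := hcol y hy
      obtain ⟨m, h1, h2, h3⟩ := CNB_step x y ha
      have hm : TP.col b m = false := by
        rw [TP.col]
        rcases h3 with h3 | h3 <;> rw [h3]
        · exact ih.1
        · exact hy'
      refine ⟨hy', (ih.2.tail ⟨h1, Set.mem_univ _, hm⟩).tail ⟨h2, Set.mem_univ _, ?_⟩⟩
      rw [TP.col, CNB_br]
      exact hy'
  exact key.2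

end Pool.Agent.helper82.SW
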